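import Pool.Agent.Lib_helper51.TM32.Defs2

/-!
TM32, block E2: units of `ℤ[ζ₈]`.
-/

set_option autoImplicit false

namespace Pool.Agent.TM32

open Zsqrtd

namespace E2

def epi : Z8 := ⟨⟨-1, -1⟩, ⟨2, 0⟩⟩

theorem epi_mul : epi * eps = 1 := by
  unfold epi; ext <;> simp <;> rfl

theorem gg_eps (u : Z8) : gg (u * eps) = 3 * gg u + 4 * hh u := by
  unfold gg hh
  simp only [QuadraticAlgebra.re_mul, QuadraticAlgebra.im_mul, Zsqrtd.re_add, Zsqrtd.re_mul, Zsqrtd.im_add, Zsqrtd.im_mul, Zsqrtd.re_one, Zsqrtd.im_one]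
  ring

theorem gg_epi (u : Z8) : gg (u * epi) = 3 * gg u - 4 * hh u := by
  unfold gg hh epi
  simp only [QuadraticAlgebra.re_mul, QuadraticAlgebra.im_mul, Zsqrtd.re_add, Zsqrtd.re_mul, Zsqrtd.im_add, Zsqrtd.im_mul, Zsqrtd.re_one, Zsqrtd.im_one]
  ring

theorem N8_eps : N8 eps = 1 := by
  rw [N8_eq]; rfl

theorem N8_epi : N8 epi = 1 := by
  rw [N8_eq]; rfl

theorem small {a b c d : ℤ} (h : a ^ 2 + b ^ 2 + c ^ 2 + d ^ 2 = 1) :
    (a = 1 ∧ b = 0 ∧ c = 0 ∧ d = 0) ∨ (a = -1 ∧ b = 0 ∧ c = 0 ∧ d = 0) ∨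
    (a = 0 ∧ b = 1 ∧ c = 0 ∧ d = 0) ∨ (a = 0 ∧ b = -1 ∧ c = 0 ∧ d = 0) ∨
    (a = 0 ∧ b = 0 ∧ c = 1 ∧ d = 0) ∨ (a = 0 ∧ b = 0 ∧ c = -1 ∧ d = 0) ∨
    (a = 0 ∧ b = 0 ∧ c = 0 ∧ d = 1) ∨ (a = 0 ∧ b = 0 ∧ c = 0 ∧ d = -1) := by
  have h1 : a ≤ 1 := by nlinarith [sq_nonneg b, sq_nonneg c, sq_nonneg d]
  have h2 : -1 ≤ a := by nlinarith [sq_nonneg b, sq_nonneg c, sq_nonneg d]
  have h3 : b ≤ 1 := by nlinarith [sq_nonneg a, sq_nonneg c, sq_nonneg d]
  have h4 : -1 ≤ b := by nlinarith [sq_nonneg a, sq_nonneg c, sq_nonneg d]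
  have h5 : c ≤ 1 := by nlinarith [sq_nonneg b, sq_nonneg a, sq_nonneg d]
  have h6 : -1 ≤ c := by nlinarith [sq_nonneg b, sq_nonneg a, sq_nonneg d]
  have h7 : d ≤ 1 := by nlinarith [sq_nonneg b, sq_nonneg c, sq_nonneg a]
  have h8 : -1 ≤ d := by nlinarith [sq_nonneg b, sq_nonneg c, sq_nonneg a]
  interval_cases a <;> interval_cases b <;> interval_cases c <;> interval_cases d <;> omega

theorem base {u : Z8} (h : gg u = 1) : ∃ a : ℕ, u = zet ^ a := by
  unfold gg at h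
  have e0 := eq_mk4 u
  rcases small h with h | h | h | h | h | h | h | h <;> obtain ⟨h1, h2, h3, h4⟩ := h <;>
    rw [h1, h2, h3, h4] at e0 <;> rw [e0]
  · exact ⟨0, by ext <;> rfl⟩
  · exact ⟨4, by ext <;> rfl⟩
  · exact ⟨1, by ext <;> rfl⟩
  · exact ⟨5, by ext <;> rfl⟩
  · exact ⟨2, by ext <;> rfl⟩
  · exact ⟨6, by ext <;> rfl⟩
  · exact ⟨3, by ext <;> rfl⟩
  · exact ⟨7, by ext <;> rfl⟩

end E2

open E2

theorem unit_form {u : Z8} (h : N8 u = 1) :
    ∃ a j : ℕ, u * eps ^ j = zet ^ a ∨ u = zet ^ a * eps ^ j := by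
  obtain ⟨n, hn⟩ : ∃ n : ℕ, (gg u).natAbs = n := ⟨_, rfl⟩
  induction n using Nat.strong_induction_on generalizing u with
  | _ n ih =>
    have h1 := h
    rw [N8_eq] at h1
    have hg := gg_nonneg u
    rcases lt_trichotomy (hh u) 0 with h2 | h2 | h2
    · -- u * eps
      have e1 := gg_eps u
      have e2 : N8 (u * eps) = 1 := by rw [N8_mul, h, N8_eps, one_mul]
      have e3 := gg_nonneg (u * eps)
      have e4 : gg u < -2 * hh u := by
        by_contra hc
        push Not at hc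
        nlinarith
      obtain ⟨a, j, hj⟩ := ih (gg (u * eps)).natAbs (by omega) e2 rfl
      rcases hj with hj | hj
      · exact ⟨a, j + 1, Or.inl (by rw [← hj, pow_succ]; ring)⟩
      · rcases j with _ | j
        · exact ⟨a, 1, Or.inl (by rw [pow_one, hj, pow_zero, mul_one])⟩
        · refine ⟨a, j, Or.inr ?_⟩
          have e5 : (u * eps) * epi = (zet ^ a * eps ^ (j + 1)) * epi := by rw [hj]
          have e6 : (u * eps) * epi = u * (epi * eps) := by ring
          have e7 : (zet ^ a * eps ^ (j + 1)) * epi = zet ^ a * eps ^ j * (epi * eps) := by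
            rw [pow_succ]; ring
          rw [e6, e7, epi_mul, mul_one, mul_one] at e5
          exact e5
    · have h3 : gg u = 1 := by
        rw [h2] at h1
        nlinarith
      obtain ⟨a, ha⟩ := base h3
      exact ⟨a, 0, Or.inr (by rw [ha, pow_zero, mul_one])⟩
    · have e1 := gg_epi u
      have e2 : N8 (u * epi) = 1 := by rw [N8_mul, h, N8_epi, one_mul]
      have e3 := gg_nonneg (u * epi)
      have e4 : gg u < 2 * hh u := by
        by_contra hc
        push Not at hc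
        nlinarith
      obtain ⟨a, j, hj⟩ := ih (gg (u * epi)).natAbs (by omega) e2 rfl
      have e8 : u = (u * epi) * eps := by rw [mul_assoc, epi_mul, mul_one]
      rcases hj with hj | hj
      · rcases j with _ | j
        · rw [pow_zero, mul_one] at hj
          exact ⟨a, 1, Or.inr (by rw [pow_one, ← hj]; exact e8)⟩
        · refine ⟨a, j, Or.inl ?_⟩
          rw [← hj, pow_succ]
          calc u * eps ^ j = ((u * epi) * eps) * eps ^ j := by rw [← e8]
          _ = (u * epi) * (eps ^ j * eps) := by ring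
      · refine ⟨a, j + 1, Or.inr ?_⟩
        rw [e8, hj, pow_succ]; ring

end Pool.Agent.TM32
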