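import Pool.Agent.Lib_helper51.TM32.Eu
import Pool.Prelude.Def_F_25f10a9b

/-!
Definitions for TM32 (Tunnell's numbers `2|A_p| - |B_p|` modulo 32).
`s = √-2`, `ζ = ω` a primitive 8th root of unity, `ζ² = 1 + s ζ`.
-/

set_option autoImplicit false

namespace Pool.Agent.TM32

open Zsqrtd

/-- `s = √-2` -/
abbrev sq : Zs := ⟨0, 1⟩

/-- `ℤ[ζ₈] = ℤ[s][ζ]`, `ζ² = 1 + s ζ`; an element is `A + B ζ`, `A = w.re`, `B = w.im`. -/
abbrev Z8 := QuadraticAlgebra Zs 1 sq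

/-- the absolute norm of `ℤ[ζ₈]` -/
def N8 (w : Z8) : ℤ := (QuadraticAlgebra.norm w : Zs).norm

/-- `x = x₀ + x₁ s` with `x₀` odd and `x₁` even -/
def Op (x : Zs) : Prop := x.re % 2 = 1 ∧ x.im % 2 = 0

/-- the class `𝒲⁺`: `A ∈ Op`, `B = b₀ + b₁ s` with `b₀` even -/
def Wp (w : Z8) : Prop := Op w.re ∧ w.im.re % 2 = 0

/-- the class `𝒲`: `A ∈ Op`, `4 ∣ b₀` -/
def W (w : Z8) : Prop := Op w.re ∧ w.im.re % 4 = 0

/-- `B = s * Bh` -/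
def Bh (w : Z8) : Zs := ⟨w.im.im, -(w.im.re / 2)⟩

/-- the local quadratic symbol (used for primes `y` of odd norm only) -/
def loc (x y : Zs) : ℤ :=
  if Int.gcd y.re y.im = 1 then
    jacobiSym ((x.re * y.re + 2 * x.im * y.im) * y.re) y.norm.natAbs
  else jacobiSym x.norm (Int.gcd y.re y.im)

/-- the quadratic residue symbol `(x/y)` of `ℤ[√-2]` (for `y` of odd norm) -/
noncomputable def qs (x y : Zs) : ℤ :=
  ((UniqueFactorizationMonoid.factors y).map (fun ρ => loc x ρ)).prod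

/-- `S⁺(w) = (Bh/A)` -/
noncomputable def Sp (w : Z8) : ℤ := qs (Bh w) w.re

/-- `T(x,y) = (A(xy)/ν(y))` -/
noncomputable def T (x y : Z8) : ℤ := qs (x * y).re (QuadraticAlgebra.norm y)

/-- the symbol `S̃` on `𝒲`: `(Bh/A) (-1)^(a₁/2) (2/|α|²)`, `α = (a₀ - b₁) + b₁ i` -/
noncomputable def St (w : Z8) : ℤ :=
  Sp w * (if w.re.im % 4 = 0 then 1 else -1) *
    jacobiSym 2 ((w.re.re - w.im.im) ^ 2 + w.im.im ^ 2).natAbs

/-- `g(w) = w₀²+w₁²+w₂²+w₃²` for `w = w₀ + w₁ ζ + w₂ ζ² + w₃ ζ³` -/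
def gg (w : Z8) : ℤ :=
  (w.re.re - w.im.im) ^ 2 + (w.im.re + w.re.im) ^ 2 + w.im.im ^ 2 + w.re.im ^ 2

/-- `h(w) = w₀w₁+w₁w₂+w₂w₃-w₃w₀`; `g + h √2 = |w|²` -/
def hh (w : Z8) : ℤ := w.re.re * w.im.re + 2 * w.re.im * w.im.im

/-- `L(w) = log (|w|²/|w'|²)` -/
noncomputable def Lw (w : Z8) : ℝ :=
  Real.log (((gg w : ℝ) + Real.sqrt 2 * hh w) / ((gg w : ℝ) - Real.sqrt 2 * hh w))

/-- partition of unity for the action of the unit `ε²`, `ε = 1 + √2` -/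
noncomputable def Ph (w : Z8) : ℝ := max 0 (1 - |Lw w| / (8 * Real.log (1 + Real.sqrt 2)))

/-- the elements with all four coordinates in `[-R, R]` -/
noncomputable def bx (R : ℕ) : Finset Z8 :=
  ((Finset.Icc (-(R : ℤ)) R ×ˢ Finset.Icc (-(R : ℤ)) R) ×ˢ
    (Finset.Icc (-(R : ℤ)) R ×ˢ Finset.Icc (-(R : ℤ)) R)).map
    ⟨fun v => ⟨⟨v.1.1, v.1.2⟩, ⟨v.2.1, v.2.2⟩⟩, by
      rintro ⟨⟨a, b⟩, c, d⟩ ⟨⟨a', b'⟩, c', d'⟩ h
      simp only [QuadraticAlgebra.mk.injEq, Zsqrtd.mk.injEq] at h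
      obtain ⟨⟨h1, h2⟩, h3, h4⟩ := h
      rw [h1, h2, h3, h4]⟩

open Classical in
/-- the weighted sum over the elements of norm `n` -/
noncomputable def F (n : ℕ) : ℝ :=
  ∑ w ∈ (bx (20 * n)).filter (fun w => W w ∧ N8 w = n), Ph w * St w

/-- Tunnell's number `2|A_n| - |B_n|` -/
noncomputable def aT (n : ℕ) : ℤ :=
  2 * ((N9003ba20.A n).ncard : ℤ) - ((N9003ba20.B n).ncard : ℤ)

end Pool.Agent.TM32
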