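import Pool.Agent.Lib_helper51.TM32.Defs2
import Pool.Agent.Lib_helper82.Quartic.Quad
import Pool.Agent.Lib_helper72.TM32.A32
import Pool.Agent.Lib_helper72.TM32.K1
import Pool.Agent.Lib_helper82.TM32.I3
import Pool.Agent.Lib_helper72.TM32.I2

/-!
TM32, block ARITH.
-/

set_option autoImplicit false

namespace Pool.Agent.TM32

open Zsqrtd


/-! ### sums of two squares -/

theorem two_sq_unique {p : ℕ} (hp : p.Prime) {a u c v : ℤ} (h1 : (p : ℤ) = a ^ 2 + 16 * u ^ 2)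
    (h2 : (p : ℤ) = c ^ 2 + 16 * v ^ 2) : u ^ 2 = v ^ 2 := by
  have hpp : (0 : ℤ) < p := by exact_mod_cast hp.pos
  have hprime : Prime (p : ℤ) := Nat.prime_iff_prime_int.1 hp
  have e1 : (a * v - c * u) * (a * v + c * u) = p * (v ^ 2 - u ^ 2) := by
    have : (a * v - c * u) * (a * v + c * u) = a ^ 2 * v ^ 2 - c ^ 2 * u ^ 2 := by ring
    rw [this]
    have ha : a ^ 2 = p - 16 * u ^ 2 := by linarith
    have hc : c ^ 2 = p - 16 * v ^ 2 := by linarith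
    rw [ha, hc]; ring
  have key : ∀ z t : ℤ, (p : ℤ) ^ 2 = t ^ 2 + 16 * z ^ 2 → (p : ℤ) ∣ z → z = 0 := by
    rintro z t h ⟨k, rfl⟩
    by_contra hne
    have hk : k ≠ 0 := by rintro rfl; simp at hne
    have hk2 : 1 ≤ k ^ 2 := by
      have : 0 < k ^ 2 := by positivity
      omega
    nlinarith [sq_nonneg t, pow_pos hpp 2]
  have hd : (p : ℤ) ∣ (a * v - c * u) * (a * v + c * u) := ⟨_, e1⟩
  have h0 : (a * v - c * u) * (a * v + c * u) = 0 := by
    rcases hprime.dvd_or_dvd hd with h | h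
    · have := key (a * v - c * u) (a * c + 16 * u * v) (by
        rw [pow_two]; nth_rw 1 [h1]; nth_rw 1 [h2]; ring) h
      rw [this, zero_mul]
    · have := key (a * v + c * u) (a * c - 16 * u * v) (by
        rw [pow_two]; nth_rw 1 [h1]; nth_rw 1 [h2]; ring) h
      rw [this, mul_zero]
  rw [h0] at e1
  have : v ^ 2 - u ^ 2 = 0 := by
    rcases mul_eq_zero.1 e1.symm with h | h
    · exact absurd h hpp.ne'
    · exact h
  linarith

theorem r_count {p : ℕ} (hp : p.Prime) {x U : ℤ} (h : (p : ℤ) = x ^ 2 + 16 * U ^ 2) :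
    Nat.card {q : ℕ × ℕ // 0 < q.1 ∧ 0 < q.2 ∧ q.2 % 2 = 1 ∧ p = q.1 ^ 2 + 16 * q.2 ^ 2} =
      if U % 2 = 1 then 1 else 0 := by
  have hx : x ≠ 0 := by
    rintro rfl
    have h1 : (p : ℤ) = (4 * U) * (4 * U) := by rw [h]; ring
    have := Nat.prime_iff_prime_int.1 hp
    exact this.not_isSquare ⟨4 * U, h1⟩
  have hU0 : U ≠ 0 := by
    rintro rfl
    have h1 : (p : ℤ) = x * x := by rw [h]; ring
    have := Nat.prime_iff_prime_int.1 hp
    exact this.not_isSquare ⟨x, h1⟩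
  split_ifs with hU
  · rw [Nat.card_eq_one_iff_exists]
    refine ⟨⟨(x.natAbs, U.natAbs), ?_, ?_, ?_, ?_⟩, ?_⟩
    · exact Int.natAbs_pos.2 hx
    · exact Int.natAbs_pos.2 hU0
    · simp only; omega
    · simp only
      zify
      rw [sq_abs, sq_abs]; exact h
    · rintro ⟨⟨a, b⟩, ha, hb, hb2, he⟩
      simp only at ha hb hb2 he
      have he' : (p : ℤ) = (a : ℤ) ^ 2 + 16 * (b : ℤ) ^ 2 := by exact_mod_cast he
      have h3 := two_sq_unique hp he' h
      have h4 : (a : ℤ) ^ 2 = x ^ 2 := by linarith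
      have h5 : b = U.natAbs := by
        have := Int.natAbs_eq_natAbs_iff.2 (sq_eq_sq_iff_eq_or_eq_neg.1 h3)
        simpa using this
      have h6 : a = x.natAbs := by
        have := Int.natAbs_eq_natAbs_iff.2 (sq_eq_sq_iff_eq_or_eq_neg.1 h4)
        simpa using this
      subst h5 h6
      rfl
  · rw [Nat.card_eq_zero]
    left
    refine ⟨?_⟩
    rintro ⟨⟨a, b⟩, ha, hb, hb2, he⟩
    simp only at ha hb hb2 he
    have he' : (p : ℤ) = (a : ℤ) ^ 2 + 16 * (b : ℤ) ^ 2 := by exact_mod_cast he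
    have h3 := two_sq_unique hp he' h
    have h5 : b = U.natAbs := by
      have := Int.natAbs_eq_natAbs_iff.2 (sq_eq_sq_iff_eq_or_eq_neg.1 h3)
      simpa using this
    omega

/-! ### signs -/

theorem J2 {b : ℤ} (hb : b % 2 = 1) :
    jacobiSym 2 b.natAbs = if b % 8 = 1 ∨ b % 8 = 7 then 1 else -1 := by
  have hodd : Odd b.natAbs := by rw [Int.natAbs_odd, Int.odd_iff]; exact hb
  have h1 : (b.natAbs : ℤ) % 8 = 1 ∨ (b.natAbs : ℤ) % 8 = 3 ∨ (b.natAbs : ℤ) % 8 = 5 ∨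
    (b.natAbs : ℤ) % 8 = 7 := by
    have := hodd
    rw [Nat.odd_iff] at this
    omega
  rw [jacobiSym.at_two hodd, ZMod.χ₈_nat_eq_if_mod_eight]
  rw [Nat.odd_iff] at hodd
  rw [if_neg (by omega)]
  by_cases h : b % 8 = 1 ∨ b % 8 = 7
  · rw [if_pos h, if_pos (by omega)]
  · rw [if_neg h, if_neg (by omega)]

theorem jac_sq_unit {x : ℤ} {n : ℕ} (h : jacobiSym x n ≠ 0) : jacobiSym x n * jacobiSym x n = 1 := by
  have h1 := (jacobiSym.trichotomy x n)
  rcases h1 with h1 | h1 | h1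
  · exact absurd h1 h
  · rw [h1]; norm_num
  · rw [h1]; norm_num

theorem jac_f {e H : ℤ} (he : 0 < e) (he4 : e % 4 = 1) :
    jacobiSym (e - 4 * H) e.natAbs = jacobiSym H e.natAbs := by
  have hodd : Odd e.natAbs := by rw [Int.natAbs_odd, Int.odd_iff]; omega
  have h1 : jacobiSym (e - 4 * H) e.natAbs = jacobiSym (-(4 * H)) e.natAbs := by
    apply jacobiSym.mod_left'
    have : ((e.natAbs : ℕ) : ℤ) = e := by rw [Int.natCast_natAbs, abs_of_pos he]
    rw [this]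
    have e1 : e - 4 * H = -(4 * H) + e := by ring
    rw [e1, Int.add_emod_right]
  have h2 : jacobiSym (-1) e.natAbs = 1 := by
    rw [jacobiSym.at_neg_one hodd, ZMod.χ₄_nat_eq_if_mod_four]
    rw [if_neg (by omega), if_pos (by omega)]
  have h3 : jacobiSym 4 e.natAbs = 1 := by
    have : (4 : ℤ) = 2 ^ 2 := by norm_num
    rw [this]
    apply jacobiSym.sq_one'
    rw [← Int.isCoprime_iff_gcd_eq_one]
    have : IsCoprime (2 : ℤ) (e.natAbs : ℤ) := by
      rw [Int.natCast_natAbs, abs_of_pos he]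
      exact ⟨-(e / 2), 1, by omega⟩
    exact this
  have e1 : -(4 * H) = (-1) * 4 * H := by ring
  rw [h1, e1, jacobiSym.mul_left, jacobiSym.mul_left, h2, h3]; ring

/-- the final sign identity -/
theorem sign_final {a b c d : ℤ} (hab : (a + b) % 2 = 1) :
    (if b % 4 = 2 then (-1 : ℤ) else 1) *
    (if b % 2 = 0 then (if c % 2 = 0 then 1 else -1)
       else (if d % 2 = 0 then 1 else -1) * (if a % 4 = 0 then 1 else -1)) *
    (if (a ^ 2 + b ^ 2 + 8 * (c ^ 2 + d ^ 2) - 4 * (a * d - b * c)) % 8 = 1 ∨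
      (a ^ 2 + b ^ 2 + 8 * (c ^ 2 + d ^ 2) - 4 * (a * d - b * c)) % 8 = 7 then 1 else -1) *
    (if ((a * b) / 2 + 4 * (c * d)) % 2 = 1 then -1 else 1) =
    (if (2 * (c + d)) % 4 = 0 then 1 else -1) *
    (if (a ^ 2 + b ^ 2) % 8 = 1 ∨ (a ^ 2 + b ^ 2) % 8 = 7 then 1 else -1) := by
  have key : ∀ a b c d : ZMod 8, (a + b).val % 2 = 1 → 
    (if b.val % 4 = 2 then (-1 : ℤ) else 1) *
    (if b.val % 2 = 0 then (if c.val % 2 = 0 then 1 else -1)
       else (if d.val % 2 = 0 then 1 else -1) * (if a.val % 4 = 0 then 1 else -1)) *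
    (if (a ^ 2 + b ^ 2 + 8 * (c ^ 2 + d ^ 2) - 4 * (a * d - b * c)).val = 1 ∨
      (a ^ 2 + b ^ 2 + 8 * (c ^ 2 + d ^ 2) - 4 * (a * d - b * c)).val = 7 then 1 else -1) *
    (if (a * b).val % 4 = 2 then -1 else 1) =
    (if (2 * (c + d)).val % 4 = 0 then 1 else -1) *
    (if (a ^ 2 + b ^ 2).val = 1 ∨ (a ^ 2 + b ^ 2).val = 7 then 1 else -1) := by decide +kernel
  have hc : ∀ z : ℤ, (((z : ZMod 8).val : ℕ) : ℤ) = z % 8 := by
    intro z; rw [ZMod.val_intCast]; rfl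
  have hk := key (a : ZMod 8) (b : ZMod 8) (c : ZMod 8) (d : ZMod 8) (by
    have := hc (a + b); push_cast at this ⊢; omega)
  have e1 := hc a
  have e2 := hc b
  have e3 := hc c
  have e4 := hc d
  have e5 := hc (a ^ 2 + b ^ 2 + 8 * (c ^ 2 + d ^ 2) - 4 * (a * d - b * c))
  have e6 := hc (a * b)
  have e7 := hc (2 * (c + d))
  have e8 := hc (a ^ 2 + b ^ 2)
  push_cast at e5 e6 e7 e8
  set A := (a : ZMod 8).val
  set B := (b : ZMod 8).val
  set C := (c : ZMod 8).val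
  set D := (d : ZMod 8).val
  set E := ((a : ZMod 8) ^ 2 + (b : ZMod 8) ^ 2 + 8 * ((c : ZMod 8) ^ 2 + (d : ZMod 8) ^ 2) - 4 * ((a : ZMod 8) * d - b * c)).val
  set F := ((a : ZMod 8) * b).val
  set G := (2 * ((c : ZMod 8) + d)).val
  set I := ((a : ZMod 8) ^ 2 + (b : ZMod 8) ^ 2).val
  have c1 : (b % 4 = 2) ↔ B % 4 = 2 := by omega
  have c2 : (b % 2 = 0) ↔ B % 2 = 0 := by omega
  have c3 : (c % 2 = 0) ↔ C % 2 = 0 := by omega
  have c4 : (d % 2 = 0) ↔ D % 2 = 0 := by omega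
  have c5 : (a % 4 = 0) ↔ A % 4 = 0 := by omega
  have c6 : ((a ^ 2 + b ^ 2 + 8 * (c ^ 2 + d ^ 2) - 4 * (a * d - b * c)) % 8 = 1 ∨
      (a ^ 2 + b ^ 2 + 8 * (c ^ 2 + d ^ 2) - 4 * (a * d - b * c)) % 8 = 7) ↔ (E = 1 ∨ E = 7) := by
    omega
  have c7 : (((a * b) / 2 + 4 * (c * d)) % 2 = 1) ↔ (F % 4 = 2) := by
    have : (a * b) % 2 = 0 := by
      rcases Int.emod_two_eq_zero_or_one a with h | h
      · rw [Int.mul_emod, h]; simp
      · have : b % 2 = 0 := by omega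
        rw [Int.mul_emod, this]; simp
    omega
  have c8 : ((2 * (c + d)) % 4 = 0) ↔ (G % 4 = 0) := by omega
  have c9 : ((a ^ 2 + b ^ 2) % 8 = 1 ∨ (a ^ 2 + b ^ 2) % 8 = 7) ↔ (I = 1 ∨ I = 7) := by omega
  simp only [c1, c2, c3, c4, c5, c6, c7, c8, c9]
  exact hk

theorem gi_unit_cases {u : GaussianInt} (hu : IsUnit u) :
    (u.re = 1 ∧ u.im = 0) ∨ (u.re = -1 ∧ u.im = 0) ∨ (u.re = 0 ∧ u.im = 1) ∨
      (u.re = 0 ∧ u.im = -1) := by
  have h1 := (Quartic82.unit_iff u).1 hu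
  rw [Zsqrtd.norm_def] at h1
  have h2 : u.re ^ 2 + u.im ^ 2 = 1 := by nlinarith
  have h3 : u.re ≤ 1 := by nlinarith
  have h4 : -1 ≤ u.re := by nlinarith
  have h5 : u.im ≤ 1 := by nlinarith
  have h6 : -1 ≤ u.im := by nlinarith
  generalize u.re = x at *
  generalize u.im = y at *
  interval_cases x <;> interval_cases y <;> omega

/-- from the power residue to the symbol -/
theorem q4_of_pow {p : ℕ} (hp : p.Prime) (h8 : p % 8 = 1) {π : GaussianInt}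
    (hn : π.norm = (p : ℤ)) {e V : ℤ} (hV : V = 1 ∨ V = -1)
    (h : ((e : ZMod p)) ^ ((p - 1) / 4) = (V : ZMod p)) :
    Quartic82.Q4 (e : GaussianInt) π = (V : GaussianInt) := by
  have hp17 : 9 ≤ p := by
    have := hp.two_le
    omega
  have hπp : Prime π := by
    have h1 : Irreducible π := by
      constructor
      · intro hu
        have := (Quartic82.unit_iff π).1 hu
        rw [hn] at this
        have : p = 1 := by exact_mod_cast this
        omega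
      · intro a b hab
        have h2 : a.norm * b.norm = p := by rw [← hn, hab, Zsqrtd.norm_mul]
        have ha := Zsqrtd.norm_nonneg (by norm_num : (-1 : ℤ) ≤ 0) a
        have hb := Zsqrtd.norm_nonneg (by norm_num : (-1 : ℤ) ≤ 0) b
        have h3 : a.norm.natAbs * b.norm.natAbs = p := by
          rw [← Int.natAbs_mul, h2]; simp
        rcases (Nat.dvd_prime hp).1 ⟨b.norm.natAbs, h3.symm⟩ with h4 | h4
        · left; rw [Quartic82.unit_iff]; omega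
        · right
          rw [Quartic82.unit_iff]
          rw [h4] at h3
          have : b.norm.natAbs = 1 := Nat.eq_of_mul_eq_mul_left hp.pos (by rw [h3, mul_one])
          omega
    exact h1.prime
  have hod : Quartic82.Od π := by
    unfold Quartic82.Od; rw [hn]; omega
  have hpd : π ∣ ((p : ℤ) : GaussianInt) := by
    rw [← hn, Zsqrtd.norm_eq_mul_conj]; exact ⟨_, rfl⟩
  have hp0 : ((p : ℤ) : ZMod p) = 0 := by simp
  have h1 : (p : ℤ) ∣ e ^ ((p - 1) / 4) - V := by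
    rw [← ZMod.intCast_zmod_eq_zero_iff_dvd]
    push_cast
    rw [h]; ring
  have h2 : π ∣ (e : GaussianInt) ^ ((p - 1) / 4) - (V : GaussianInt) := by
    obtain ⟨k, hk⟩ := h1
    have h3 := congrArg (fun z : ℤ => (z : GaussianInt)) hk
    simp only [Int.cast_sub, Int.cast_pow, Int.cast_mul] at h3
    rw [h3]
    exact hpd.mul_right _
  have hunitV : IsUnit (V : GaussianInt) := by
    rcases hV with rfl | rfl
    · simp
    · simp
  have hnd : ¬ π ∣ (e : GaussianInt) := by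
    intro h3
    have h4 : (p - 1) / 4 ≠ 0 := by omega
    have h5 : π ∣ (e : GaussianInt) ^ ((p - 1) / 4) := dvd_pow h3 h4
    have h6 : π ∣ (V : GaussianInt) := (dvd_sub_right h5).1 h2
    exact hπp.not_isUnit (isUnit_of_dvd_unit h6 hunitV)
  obtain ⟨hu, hd⟩ := Quartic82.psym_spec hπp hod hnd
  rw [Quartic82.Q4_prime _ hπp]
  rw [hn] at hd
  simp only [Int.natAbs_natCast] at hd
  have h3 : π ∣ Quartic82.psym π e - (V : GaussianInt) := by
    have := dvd_sub h2 hd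
    have e1 : ((e : GaussianInt) ^ ((p - 1) / 4) - (V : GaussianInt)) -
      ((e : GaussianInt) ^ ((p - 1) / 4) - Quartic82.psym π e) =
      Quartic82.psym π e - (V : GaussianInt) := by ring
    rwa [e1] at this
  obtain ⟨k, hk⟩ := h3
  have h4 : (Quartic82.psym π e - (V : GaussianInt)).norm = p * k.norm := by
    rw [hk, Zsqrtd.norm_mul, hn]
  have hkn := Zsqrtd.norm_nonneg (by norm_num : (-1 : ℤ) ≤ 0) k
  have h5 : (Quartic82.psym π e - (V : GaussianInt)).norm ≤ 4 := by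
    rw [Zsqrtd.norm_def]
    rcases gi_unit_cases hu with ⟨h6, h7⟩ | ⟨h6, h7⟩ | ⟨h6, h7⟩ | ⟨h6, h7⟩ <;>
    rcases hV with rfl | rfl <;>
    simp [h6, h7]
  have h6 : k.norm = 0 := by
    by_contra hne
    have : 1 ≤ k.norm := by omega
    have h7 : (9 : ℤ) ≤ p := by exact_mod_cast hp17
    nlinarith
  have h7 : k = 0 := by
    rwa [Zsqrtd.norm_eq_zero_iff (by norm_num)] at h6
  rw [h7, mul_zero] at hk
  exact sub_eq_zero.1 hk

theorem prime_coprime_of_sq {p : ℕ} (hp : p.Prime) {e H : ℤ}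
    (h : (p : ℤ) = e ^ 2 + 8 * e * H - 16 * H ^ 2) : IsCoprime e H := by
  rw [Int.isCoprime_iff_gcd_eq_one]
  by_contra hne
  obtain ⟨l, hl, hld⟩ := Nat.exists_prime_and_dvd hne
  have h1 : (l : ℤ) ∣ e := (Int.natCast_dvd_natCast.2 hld).trans (Int.gcd_dvd_left _ _)
  have h2 : (l : ℤ) ∣ H := (Int.natCast_dvd_natCast.2 hld).trans (Int.gcd_dvd_right _ _)
  obtain ⟨x, rfl⟩ := h1
  obtain ⟨y, rfl⟩ := h2
  have h3 : (p : ℤ) = l * l * (x ^ 2 + 8 * x * y - 16 * y ^ 2) := by rw [h]; ring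
  have h4 : l * l ∣ p := by
    have : ((l * l : ℕ) : ℤ) ∣ (p : ℤ) := ⟨_, by push_cast; exact h3⟩
    exact_mod_cast this
  exact (Nat.squarefree_iff_prime_squarefree.1 hp.squarefree) l hl h4

theorem gauss_coprime {p : ℕ} (hp : p.Prime) {α β : GaussianInt}
    (h : (α ^ 2 + 8 * β ^ 2).norm = (p : ℤ)) : IsCoprime β α := by
  apply isCoprime_of_prime_dvd
  · rintro ⟨rfl, rfl⟩
    simp at h
    have := hp.pos
    omega
  · intro z hz h1 h2
    obtain ⟨x, rfl⟩ := h1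
    obtain ⟨y, rfl⟩ := h2
    have e1 : (z * y) ^ 2 + 8 * (z * x) ^ 2 = z * z * (y ^ 2 + 8 * x ^ 2) := by ring
    rw [e1, Zsqrtd.norm_mul, Zsqrtd.norm_mul] at h
    have hz0 := Zsqrtd.norm_nonneg (by norm_num : (-1 : ℤ) ≤ 0) z
    have h3 : z.norm.natAbs * z.norm.natAbs ∣ p := by
      have : z.norm.natAbs * z.norm.natAbs * (y ^ 2 + 8 * x ^ 2).norm.natAbs = p := by
        rw [← Int.natAbs_mul, ← Int.natAbs_mul, h]; simp
      exact ⟨_, this.symm⟩
    have h4 := hp.squarefree _ h3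
    rw [Nat.isUnit_iff] at h4
    apply hz.not_isUnit
    rw [Quartic82.unit_iff]
    omega

theorem arith_core {a b c d : ℤ} {p : ℕ} (hp : p.Prime) (hab : (a + b) % 2 = 1)
    (hN : (p : ℤ) = (a ^ 2 + b ^ 2 + 8 * (c ^ 2 + d ^ 2)) ^ 2 - 32 * (a * d - b * c) ^ 2) :
    (St ⟨⟨a + b, 2 * (c + d)⟩, ⟨-4 * d, b⟩⟩ = 1 ∧ aT p % 32 = 0) ∨
    (St ⟨⟨a + b, 2 * (c + d)⟩, ⟨-4 * d, b⟩⟩ = -1 ∧ aT p % 32 = 16) := by
  set H := a * d - b * c with hH
  set G := a ^ 2 + b ^ 2 + 8 * (c ^ 2 + d ^ 2) with hG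
  have hab2 : (a ^ 2 + b ^ 2) % 4 = 1 := by
    have h1 : a ^ 2 + b ^ 2 = (a + b) ^ 2 - 2 * (a * b) := by ring
    rcases Int.emod_two_eq_zero_or_one a with h | h
    · obtain ⟨k, hk⟩ : ∃ k, a = 2 * k := ⟨a / 2, by omega⟩
      obtain ⟨l, hl⟩ : ∃ l, b = 2 * l + 1 := ⟨b / 2, by omega⟩
      rw [hk, hl]; ring_nf; omega
    · obtain ⟨k, hk⟩ : ∃ k, a = 2 * k + 1 := ⟨a / 2, by omega⟩
      obtain ⟨l, hl⟩ : ∃ l, b = 2 * l := ⟨b / 2, by omega⟩
      rw [hk, hl]; ring_nf; omega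
  have hpp : (0 : ℤ) < p := by exact_mod_cast hp.pos
  have hG4 : G % 4 = 1 := by omega
  have h8 : p % 8 = 1 := by
    obtain ⟨k, hk⟩ : ∃ k, G = 4 * k + 1 := ⟨G / 4, by omega⟩
    have : (p : ℤ) = 8 * (2 * k ^ 2 + k - 4 * H ^ 2) + 1 := by rw [hN, hk]; ring
    omega
  have hG0 : 0 ≤ G := by positivity
  have he : 0 < G - 4 * H := by
    by_contra hne
    push Not at hne
    nlinarith
  have hpef : (p : ℤ) = 2 * (G - 4 * H) ^ 2 - (G - 8 * H) ^ 2 := by rw [hN]; ring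
  have he4 : (G - 4 * H) % 4 = 1 := by omega
  have : NeZero p := ⟨hp.ne_zero⟩
  obtain ⟨hh8, hpow⟩ := (K_main hp h8 he hpef).2 he4
  set e := G - 4 * H with hedef
  have hf : G - 8 * H = e - 4 * H := by rw [hedef]; ring
  rw [hf] at hpow
  rw [jac_f he he4] at hpow
  set h := Nat.card (ClassGroup (Zsqrtd (-(p : ℤ)))) with hhdef
  -- coprimality
  have hcop : IsCoprime e H := prime_coprime_of_sq hp (by rw [hN, hedef]; ring)
  have hH0 : H ≠ 0 := by
    intro h0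
    rw [h0] at hN
    have : (p : ℤ) = G * G := by rw [hN]; ring
    exact (Nat.prime_iff_prime_int.1 hp).not_isSquare ⟨G, this⟩
  have hodd : Odd e.natAbs := by rw [Int.natAbs_odd, Int.odd_iff]; omega
  have heabs : ((e.natAbs : ℕ) : ℤ) = e := by rw [Int.natCast_natAbs, abs_of_pos he]
  have hnz : NeZero e.natAbs := ⟨by omega⟩
  have hJH : jacobiSym H e.natAbs ≠ 0 := by
    rw [Ne, jacobiSym.eq_zero_iff_not_coprime, heabs, not_not, ← Int.isCoprime_iff_gcd_eq_one]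
    exact hcop.symm
  have hJH2 := jac_sq_unit hJH
  have hJ2v := J2 (b := e) (by omega)
  have hJ22 : jacobiSym 2 e.natAbs * jacobiSym 2 e.natAbs = 1 := by
    rw [hJ2v]; split_ifs <;> norm_num
  -- the Gaussian integers
  set α : GaussianInt := ⟨a, b⟩ with hα
  set β : GaussianInt := ⟨c, d⟩ with hβ
  have hαn : α.norm = a ^ 2 + b ^ 2 := by rw [Zsqrtd.norm_def]; simp [hα]; ring
  have hβn : β.norm = c ^ 2 + d ^ 2 := by rw [Zsqrtd.norm_def]; simp [hβ]; ring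
  have hαo : Quartic82.Od α := by unfold Quartic82.Od; rw [hαn]; omega
  have hπn : (α ^ 2 + 8 * β ^ 2).norm = (p : ℤ) := by
    rw [hN, Zsqrtd.norm_def, hH, hG]
    simp only [hα, hβ, pow_two, Zsqrtd.re_add, Zsqrtd.im_add, Zsqrtd.re_mul, Zsqrtd.im_mul]
    simp
    ring
  have hcopG := gauss_coprime hp hπn
  have hq := quart_step α β hαo p hp hπn H e hH (by rw [hαn, hβn, hedef, hG]; ring)
  have hg := G8 hαo hcopG H e hH hH0 (by rw [hαn, hβn, hedef, hG]; ring) hcop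
  set J := jacobiSym H e.natAbs with hJdef
  set K := jacobiSym 2 e.natAbs with hKdef
  have hJpm : J = 1 ∨ J = -1 := by
    have : (J - 1) * (J + 1) = 0 := by linear_combination hJH2
    rcases mul_eq_zero.1 this with h1 | h1
    · left; linarith
    · right; linarith
  have hKpm : K = 1 ∨ K = -1 := by
    have : (K - 1) * (K + 1) = 0 := by linear_combination hJ22
    rcases mul_eq_zero.1 this with h1 | h1
    · left; linarith
    · right; linarith
  have hkpm : ((-1 : ℤ) ^ (h / 8) = 1) ∨ ((-1 : ℤ) ^ (h / 8) = -1) := neg_one_pow_eq_or ℤ _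
  have hV : J * K * (-1) ^ (h / 8) = 1 ∨ J * K * (-1) ^ (h / 8) = -1 := by
    rcases hJpm with h1 | h1 <;> rcases hKpm with h2 | h2 <;> rcases hkpm with h3 | h3 <;>
    rw [h1, h2, h3] <;> norm_num
  have hQ4 := q4_of_pow hp h8 hπn hV hpow
  rw [hQ4] at hq
  obtain ⟨q, hqpm, hqv⟩ : ∃ q : ℤ, (q = 1 ∨ q = -1) ∧ Quartic82.Q2 β α = (q : GaussianInt) := by
    rcases Quartic82.Q2_pm hαo hcopG with h1 | h1
    · exact ⟨1, Or.inl rfl, by rw [h1]; simp⟩
    · exact ⟨-1, Or.inr rfl, by rw [h1]; simp⟩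
  rw [hqv] at hq hg
  -- in integers
  have hq' : J * K * (-1) ^ (h / 8) = q * (if b % 2 = 0 then (if c % 2 = 0 then 1 else -1)
       else (if d % 2 = 0 then 1 else -1) * (if a % 4 = 0 then 1 else -1)) := by
    have h1 := congrArg Zsqrtd.re hq
    simp only [hα, hβ] at h1
    have h2 : ((J * K * (-1) ^ (h / 8) : ℤ) : GaussianInt).re = J * K * (-1) ^ (h / 8) :=
      Zsqrtd.re_intCast _
    rw [h2] at h1
    rw [h1]
    split_ifs <;> simp
  have hg' : q * J = qs ⟨b, 2 * d⟩ ⟨a + b, 2 * (c + d)⟩ * (if b % 4 = 2 then -1 else 1) := by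
    have h1 := congrArg Zsqrtd.re hg
    simp only [hα, hβ] at h1
    have h2 : ((q : GaussianInt) * ((J : ℤ) : GaussianInt)).re = q * J := by
      rw [← Int.cast_mul]; exact Zsqrtd.re_intCast _
    rw [h2, Zsqrtd.re_intCast] at h1
    exact h1
  -- the value of St
  have hSt : St ⟨⟨a + b, 2 * (c + d)⟩, ⟨-4 * d, b⟩⟩ = qs ⟨b, 2 * d⟩ ⟨a + b, 2 * (c + d)⟩ *
      (if (2 * (c + d)) % 4 = 0 then 1 else -1) *
      (if (a ^ 2 + b ^ 2) % 8 = 1 ∨ (a ^ 2 + b ^ 2) % 8 = 7 then 1 else -1) := by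
    unfold St Sp Bh
    simp only
    have e1 : -(-4 * d / 2) = 2 * d := by omega
    have e2 : (a + b - b) ^ 2 + b ^ 2 = a ^ 2 + b ^ 2 := by ring
    rw [e1, e2, J2 (by omega)]
  -- the number r'
  have hU : (p : ℤ) = (a ^ 2 - b ^ 2 + 8 * (c ^ 2 - d ^ 2)) ^ 2 +
      16 * ((a * b) / 2 + 4 * (c * d)) ^ 2 := by
    have h1 : (a * b) % 2 = 0 := by
      rcases Int.emod_two_eq_zero_or_one a with h | h
      · rw [Int.mul_emod, h]; simp
      · have : b % 2 = 0 := by omega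
        rw [Int.mul_emod, this]; simp
    obtain ⟨k, hk⟩ : ∃ k, a * b = 2 * k := ⟨a * b / 2, by omega⟩
    have h2 : a * b / 2 = k := by omega
    rw [h2, hN, hH, hG]
    have h3 : k = k := rfl
    have h4 : (2 * k) ^ 2 = (a * b) ^ 2 := by rw [hk]
    have h5 : (2 * k) * (c * d) = (a * b) * (c * d) := by rw [hk]
    linear_combination (-4) * h4 - 64 * h5
  have hr := r_count hp hU
  obtain ⟨N, hNa⟩ := a32 p hp.squarefree h8 hp.one_lt
    ⟨a ^ 2 - b ^ 2 + 8 * (c ^ 2 - d ^ 2), 4 * ((a * b) / 2 + 4 * (c * d)), 0, by rw [hU]; ring⟩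
  rw [hr] at hNa
  obtain ⟨k, hk⟩ := hh8
  have hk8 : h / 8 = k := by omega
  rw [hk8] at hq'
  have hs := sign_final (c := c) (d := d) hab
  rw [show a ^ 2 + b ^ 2 + 8 * (c ^ 2 + d ^ 2) - 4 * (a * d - b * c) = e from rfl, ← hJ2v] at hs
  have haT : aT p = 2 * (h : ℤ) - 32 * N -
      16 * ((if (a * b / 2 + 4 * (c * d)) % 2 = 1 then 1 else 0 : ℕ) : ℤ) := hNa
  rw [hSt]
  set Q := qs ⟨b, 2 * d⟩ ⟨a + b, 2 * (c + d)⟩ with hQ
  have hs1 : (if b % 4 = 2 then (-1 : ℤ) else 1) * (if b % 4 = 2 then (-1 : ℤ) else 1) = 1 := by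
    split_ifs <;> norm_num
  have hfin : Q * (if (2 * (c + d)) % 4 = 0 then 1 else -1) *
      (if (a ^ 2 + b ^ 2) % 8 = 1 ∨ (a ^ 2 + b ^ 2) % 8 = 7 then 1 else -1) =
      (-1) ^ k * (if (a * b / 2 + 4 * (c * d)) % 2 = 1 then -1 else 1) := by
    rw [mul_assoc, ← hs]
    generalize (if (a * b / 2 + 4 * (c * d)) % 2 = 1 then (-1 : ℤ) else 1) = r at *
    generalize (if b % 4 = 2 then (-1 : ℤ) else 1) = s1 at *
    generalize (if b % 2 = 0 then (if c % 2 = 0 then (1 : ℤ) else -1)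
       else (if d % 2 = 0 then 1 else -1) * (if a % 4 = 0 then 1 else -1)) = s2 at *
    calc Q * (s1 * s2 * K * r) = (Q * s1) * s2 * K * r := by ring
    _ = (q * J) * s2 * K * r := by rw [hg']
    _ = (q * s2) * J * K * r := by ring
    _ = (J * K * (-1) ^ k) * J * K * r := by rw [hq']
    _ = (J * J) * (K * K) * ((-1) ^ k * r) := by ring
    _ = (-1) ^ k * r := by rw [hJH2, hJ22]; ring
  rw [hfin, haT, hk]
  rcases Nat.even_or_odd k with hke | hko
  · rw [hke.neg_one_pow]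
    obtain ⟨j, rfl⟩ := hke
    split_ifs
    · right
      refine ⟨by norm_num, ?_⟩
      push_cast
      omega
    · left
      refine ⟨by norm_num, ?_⟩
      push_cast
      omega
  · rw [hko.neg_one_pow]
    obtain ⟨j, rfl⟩ := hko
    split_ifs
    · left
      refine ⟨by norm_num, ?_⟩
      push_cast
      omega
    · right
      refine ⟨by norm_num, ?_⟩
      push_cast
      omega

/-- ARITH1 -/
theorem arith1 {w : Z8} {p : ℕ} (hp : p.Prime) (hw : W w) (hN : N8 w = p) :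
    (St w = 1 ∧ aT p % 32 = 0) ∨ (St w = -1 ∧ aT p % 32 = 16) := by
  obtain ⟨⟨h1, h2⟩, h3⟩ := hw
  obtain ⟨⟨a0, a1⟩, ⟨b0, b1⟩⟩ := w
  simp only at h1 h2 h3
  obtain ⟨d, hd⟩ : ∃ d, b0 = -4 * d := ⟨-(b0 / 4), by omega⟩
  obtain ⟨c, hc⟩ : ∃ c, a1 = 2 * (c + d) := ⟨a1 / 2 - d, by omega⟩
  obtain ⟨a, ha⟩ : ∃ a, a0 = a + b1 := ⟨a0 - b1, by omega⟩
  subst hd hc ha
  apply arith_core hp (by omega)
  rw [← hN, N8_eq]
  unfold gg hh
  ring

theorem mod8_of {g h : ℤ} (hg : g % 2 = 1) (hh : h % 2 = 0) : (g ^ 2 - 2 * h ^ 2) % 8 = 1 := by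
  obtain ⟨k, hk⟩ : ∃ k, g = 2 * k + 1 := ⟨g / 2, by omega⟩
  obtain ⟨l, hl⟩ : ∃ l, h = 2 * l := ⟨h / 2, by omega⟩
  have h1 : (k * (k + 1)) % 2 = 0 := by
    rcases Int.emod_two_eq_zero_or_one k with h | h
    · rw [Int.mul_emod, h]; simp
    · rw [Int.mul_emod, Int.add_emod, h]; simp
  have : g ^ 2 - 2 * h ^ 2 = 4 * (k * (k + 1)) + 1 - 8 * l ^ 2 := by rw [hk, hl]; ring
  omega

theorem three_mod {a0 a1 b0 b1 : ℤ} (h1 : a0 % 2 = 1) (h2 : a1 % 2 = 0) (h3 : b0 % 4 = 2) :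
    (((a0 - b1) ^ 2 + (b0 + a1) ^ 2 + b1 ^ 2 + a1 ^ 2) + (a0 * b0 + 2 * a1 * b1)) % 4 = 3 := by
  have key : ∀ a c b d : ZMod 4, a.val % 2 = 1 → c.val % 2 = 0 → b.val = 2 →
    (((a - d) ^ 2 + (b + c) ^ 2 + d ^ 2 + c ^ 2) + (a * b + 2 * c * d)).val = 3 := by decide +kernel
  have hc : ∀ z : ℤ, (((z : ZMod 4).val : ℕ) : ℤ) = z % 4 := by
    intro z; rw [ZMod.val_intCast]; rfl
  have e1 := hc a0
  have e2 := hc a1
  have e3 := hc b0
  have hk := key (a0 : ZMod 4) (a1 : ZMod 4) (b0 : ZMod 4) (b1 : ZMod 4) (by omega) (by omega)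
    (by omega)
  have e4 := hc (((a0 - b1) ^ 2 + (b0 + a1) ^ 2 + b1 ^ 2 + a1 ^ 2) + (a0 * b0 + 2 * a1 * b1))
  push_cast at e4
  omega

/-- ARITH2 -/
theorem arith2 {w : Z8} {p : ℕ} (hp : p.Prime) (hw : Wp w) (hN : N8 w = p) (hW : ¬ W w) :
    aT p % 16 = 8 := by
  obtain ⟨⟨h1, h2⟩, h3⟩ := hw
  have h3' : w.im.re % 4 = 2 := by
    have : ¬ (w.im.re % 4 = 0) := fun h => hW ⟨⟨h1, h2⟩, h⟩
    omega
  have h4 : (gg w + hh w) % 4 = 3 := three_mod h1 h2 h3'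
  have h5 : hh w % 2 = 0 := by
    unfold hh
    obtain ⟨k, hk⟩ : ∃ k, w.im.re = 2 * k := ⟨w.im.re / 2, by omega⟩
    rw [hk]
    have : w.re.re * (2 * k) + 2 * w.re.im * w.im.im = 2 * (w.re.re * k + w.re.im * w.im.im) := by
      ring
    omega
  rw [N8_eq] at hN
  have hg0 := gg_nonneg w
  generalize gg w = g at *
  generalize hh w = h at *
  have hpp : (0 : ℤ) < p := by exact_mod_cast hp.pos
  have h8 : p % 8 = 1 := by
    have := mod8_of (g := g) (h := h) (by omega) h5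
    omega
  have he : 0 < g + h := by
    by_contra hne
    push Not at hne
    nlinarith [sq_nonneg h]
  have hpef : (p : ℤ) = 2 * (g + h) ^ 2 - (g + 2 * h) ^ 2 := by rw [← hN]; ring
  have : NeZero p := ⟨hp.ne_zero⟩
  have hK := (K_main hp h8 he hpef).1 h4
  have : Fact p.Prime := ⟨hp⟩
  obtain ⟨x, y, hxy⟩ := Nat.Prime.sq_add_sq (p := p) (by omega)
  obtain ⟨N, hNa⟩ := a32 p hp.squarefree h8 hp.one_lt ⟨x, y, 0, by
    have : ((x ^ 2 + y ^ 2 : ℕ) : ℤ) = (p : ℤ) := by rw [hxy]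
    push_cast at this
    linarith⟩
  have haT : aT p = 2 * ((Nat.card (ClassGroup (Zsqrtd (-(p : ℤ)))) : ℕ) : ℤ) - 32 * N -
      16 * ((Nat.card {q : ℕ × ℕ // 0 < q.1 ∧ 0 < q.2 ∧ q.2 % 2 = 1 ∧
        p = q.1 ^ 2 + 16 * q.2 ^ 2} : ℕ) : ℤ) := hNa
  rw [haT]
  omega

end Pool.Agent.TM32
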