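import Pool.Agent.Lib_helper57.TM32.V1
import Pool.Agent.Lib_helper97.TM32.TYPE1
import Pool.Agent.Lib_helper97.TM32.TYPE2
import Pool.Agent.Lib_helper87.TM32.E5
import Pool.Agent.Lib_helper33.TM32.E3
import Pool.Agent.Lib_helper13.TM32.FD
import Pool.Agent.Lib_helper51.TM32.Arith

/-!
TM32, final assembly.
-/

set_option autoImplicit false

namespace Pool.Agent.TM32

open Zsqrtd

/-- the value of `F` at a prime -/
theorem F_prime {p : ℕ} (hp : p.Prime) :
    F p = 16 * ((if p % 8 = 1 ∧ aT p % 32 = 0 then (1 : ℝ) else 0) -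
      (if p % 8 = 1 ∧ aT p % 32 = 16 then 1 else 0)) := by
  classical
  obtain ⟨Rp, h1, h2, h3, h4, h5⟩ := FD
  rw [h5 p hp.one_lt.le]
  by_cases hex : ∃ w, W w ∧ N8 w = p
  · obtain ⟨w, hw, hN⟩ := hex
    obtain ⟨S, hS4, hSW, hSn, hSc⟩ := four_classes hp hw hN
    have hWp : ∀ {w}, W w → Wp w := fun {w} h => ⟨h.1, by have := h.2; omega⟩
    have hcard : ((Rp p).filter W).card = 4 := by
      rw [← hS4]
      have hf : ∀ x ∈ S, ∃ y ∈ (Rp p).filter W, Associated x y := by
        intro x hx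
        obtain ⟨hxW, hxN⟩ := hSW x hx
        obtain ⟨y, hy, hxy⟩ := h3 p hp.one_lt.le x (hWp hxW) hxN
        exact ⟨y, Finset.mem_filter.2 ⟨hy, (h4 x y hxW (h1 p y hy).1 hxy).1⟩, hxy⟩
      choose! f hf1 hf2 using hf
      symm
      apply Finset.card_bij (fun x _ => f x) (fun x hx => hf1 x hx)
      · intro x hx y hy hxy
        apply hSn x hx y hy
        have e1 := hf2 x hx
        have e2 := hf2 y hy
        rw [← hxy] at e2
        exact e1.trans e2.symm
      · intro y hy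
        have hy' := Finset.mem_filter.1 hy
        obtain ⟨x, hx, hxy⟩ := hSc y (h1 p y hy'.1).2.1
        refine ⟨x, hx, ?_⟩
        apply h2 p _ (Finset.mem_filter.1 (hf1 x hx)).1 _ hy'.1
        exact (hxy.trans (hf2 x hx)).symm
    have h8 : p % 8 = 1 := by
      have := W_norm hw
      rw [hN] at this
      omega
    rcases arith1 hp hw hN with ⟨_, ha⟩ | ⟨_, ha⟩
    · have hsum : ∀ v ∈ (Rp p).filter W, (St v : ℝ) = 1 := by
        intro v hv
        have hv' := Finset.mem_filter.1 hv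
        rcases arith1 hp hv'.2 (h1 p v hv'.1).2.1 with ⟨h, _⟩ | ⟨_, h⟩
        · rw [h]; norm_num
        · omega
      rw [Finset.sum_congr rfl hsum, Finset.sum_const, hcard, if_pos ⟨h8, ha⟩,
        if_neg (by omega)]
      norm_num
    · have hsum : ∀ v ∈ (Rp p).filter W, (St v : ℝ) = -1 := by
        intro v hv
        have hv' := Finset.mem_filter.1 hv
        rcases arith1 hp hv'.2 (h1 p v hv'.1).2.1 with ⟨_, h⟩ | ⟨h, _⟩
        · omega
        · rw [h]; norm_num
      rw [Finset.sum_congr rfl hsum, Finset.sum_const, hcard, if_neg (by omega),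
        if_pos ⟨h8, ha⟩]
      norm_num
  · have hemp : (Rp p).filter W = ∅ := by
      apply Finset.filter_eq_empty_iff.2
      intro v hv hW
      exact hex ⟨v, hW, (h1 p v hv).2.1⟩
    rw [hemp]
    have hno : ¬ (p % 8 = 1 ∧ aT p % 16 = 0) := by
      rintro ⟨h8, ha⟩
      obtain ⟨w, hw⟩ := exists_norm hp h8
      obtain ⟨u, hu, huw⟩ := exists_Wp (w := w) (by rw [hw]; omega)
      have hN : N8 (u * w) = p := by rw [N8_mul, hu, hw, one_mul]
      have := arith2 hp huw hN (fun hW => hex ⟨_, hW, hN⟩)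
      omega
    rw [if_neg (by omega), if_neg (by omega)]
    simp

/-- the main theorem -/
theorem main_theorem : ∃ δ : ℝ, 0 < δ ∧ ∃ C : ℝ, ∀ X : ℕ, 1 ≤ X →
    |((((Finset.Icc 1 X).filter (fun p => p.Prime ∧ p % 8 = 1 ∧ aT p % 32 = 0)).card : ℝ) -
      (((Finset.Icc 1 X).filter (fun p => p.Prime ∧ p % 8 = 1 ∧ aT p % 32 = 16)).card : ℝ))| ≤
      C * (X : ℝ) ^ (1 - δ) := by
  obtain ⟨δ, hδ, C, hC⟩ := sieve_assembly F F_bound type1 type2
  refine ⟨δ, hδ, C, fun X hX => ?_⟩
  have h := hC X hX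
  have e1 : ∑ p ∈ (Finset.Icc 1 X).filter Nat.Prime, F p =
      16 * ((((Finset.Icc 1 X).filter (fun p => p.Prime ∧ p % 8 = 1 ∧ aT p % 32 = 0)).card : ℝ) -
      (((Finset.Icc 1 X).filter (fun p => p.Prime ∧ p % 8 = 1 ∧ aT p % 32 = 16)).card : ℝ)) := by
    rw [Finset.sum_congr rfl (fun p hp => F_prime (Finset.mem_filter.1 hp).2), ← Finset.mul_sum,
      Finset.sum_sub_distrib]
    congr 2
    · rw [← Finset.sum_filter, Finset.filter_filter]
      simp
    · rw [← Finset.sum_filter, Finset.filter_filter]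
      simp
  rw [e1, abs_mul] at h
  have h16 : |(16 : ℝ)| = 16 := by norm_num
  rw [h16] at h
  have h0 := abs_nonneg ((((Finset.Icc 1 X).filter (fun p => p.Prime ∧ p % 8 = 1 ∧ aT p % 32 = 0)).card : ℝ) -
      (((Finset.Icc 1 X).filter (fun p => p.Prime ∧ p % 8 = 1 ∧ aT p % 32 = 16)).card : ℝ))
  linarith

end Pool.Agent.TM32
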