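import Pool.Agent.Lib_helper94.TM32.N7a
import Pool.Agent.Lib_helper41.TM32.N7b
import Pool.Agent.Lib_helper41.TM32.N8
import Pool.Agent.Lib_helper51.TM32.Final

/-!
TM32, phase 2, final assembly: natural densities.
-/

set_option autoImplicit false

namespace Pool.Agent.TM32

open Filter Topology

/-- the number of primes `p ≤ X`, `p ≡ 1 mod 8`, `aT p ≡ r mod m` -/
noncomputable def PP (m r : ℤ) (X : ℕ) : ℝ :=
  (((Finset.Icc 1 X).filter (fun p => p.Prime ∧ p % 8 = 1 ∧ aT p % m = r)).card : ℝ)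

/-- the number of primes `p ≤ X`, `p ≡ 1 mod 8` -/
noncomputable def NN (X : ℕ) : ℝ :=
  (((Finset.Icc 1 X).filter (fun p => p.Prime ∧ p % 8 = 1)).card : ℝ)

theorem aT_cases {p : ℕ} (hp : p.Prime) (h8 : p % 8 = 1) : aT p % 16 = 0 ∨ aT p % 16 = 8 := by
  obtain ⟨w, hw⟩ := exists_norm hp h8
  obtain ⟨u, hu, huw⟩ := exists_Wp (w := w) (by rw [hw]; omega)
  have hN : N8 (u * w) = p := by rw [N8_mul, hu, hw, one_mul]
  by_cases hW : W (u * w)
  · left
    rcases arith1 hp hW hN with ⟨_, h⟩ | ⟨_, h⟩ <;> omega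
  · right
    exact arith2 hp huw hN hW

theorem NN_eq (X : ℕ) : NN X = PP 16 0 X + PP 16 8 X := by
  unfold NN PP
  rw [← Nat.cast_add, ← Finset.card_union_of_disjoint]
  · congr 2
    ext p
    simp only [Finset.mem_filter, Finset.mem_union]
    constructor
    · rintro ⟨h3, h4, h5⟩
      rcases aT_cases h4 h5 with h | h
      · exact Or.inl ⟨h3, h4, h5, h⟩
      · exact Or.inr ⟨h3, h4, h5, h⟩
    · rintro (⟨h3, h4, h5, h6⟩ | ⟨h3, h4, h5, h6⟩)
      · exact ⟨h3, h4, h5⟩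
      · exact ⟨h3, h4, h5⟩
  · rw [Finset.disjoint_left]
    intro p h3 h4
    have h5 := (Finset.mem_filter.1 h3).2.2.2
    have h6 := (Finset.mem_filter.1 h4).2.2.2
    omega

theorem PP_eq (X : ℕ) : PP 16 0 X = PP 32 0 X + PP 32 16 X := by
  unfold PP
  rw [← Nat.cast_add, ← Finset.card_union_of_disjoint]
  · congr 2
    ext p
    simp only [Finset.mem_filter, Finset.mem_union]
    constructor
    · rintro ⟨h3, h4, h5, h6⟩
      have : aT p % 32 = 0 ∨ aT p % 32 = 16 := by omega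
      rcases this with h | h
      · exact Or.inl ⟨h3, h4, h5, h⟩
      · exact Or.inr ⟨h3, h4, h5, h⟩
    · rintro (⟨h3, h4, h5, h6⟩ | ⟨h3, h4, h5, h6⟩)
      · exact ⟨h3, h4, h5, by omega⟩
      · exact ⟨h3, h4, h5, by omega⟩
  · rw [Finset.disjoint_left]
    intro p h3 h4
    have h5 := (Finset.mem_filter.1 h3).2.2.2
    have h6 := (Finset.mem_filter.1 h4).2.2.2
    omega

theorem lim8 : Tendsto (fun X : ℕ => PP 16 8 X / NN X) atTop (𝓝 (1 / 2)) := by
  refine half_density.congr fun X => ?_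
  unfold PP NN
  congr 3
  ext p
  simp only [Finset.mem_filter]
  constructor
  · rintro ⟨h1, h2, h3, h4⟩
    exact ⟨h1, h2, h3, (aT_eight h2 h3).2 h4⟩
  · rintro ⟨h1, h2, h3, h4⟩
    exact ⟨h1, h2, h3, (aT_eight h2 h3).1 h4⟩

theorem NN_pos : ∀ᶠ X : ℕ in atTop, 0 < NN X := by
  obtain ⟨c, hc, h⟩ := pi8_lower
  filter_upwards [h, eventually_ge_atTop 2] with X hX h2
  have h3 : (2 : ℝ) ≤ X := by exact_mod_cast h2
  have h4 : 0 < Real.log X := Real.log_pos (by linarith)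
  have : 0 < c * (X : ℝ) / Real.log X := by positivity
  exact this.trans_le hX

theorem lim0 : Tendsto (fun X : ℕ => PP 16 0 X / NN X) atTop (𝓝 (1 / 2)) := by
  have h1 : Tendsto (fun X : ℕ => 1 - PP 16 8 X / NN X) atTop (𝓝 (1 - 1 / 2)) :=
    tendsto_const_nhds.sub lim8
  have e : (1 : ℝ) - 1 / 2 = 1 / 2 := by norm_num
  rw [e] at h1
  refine h1.congr' ?_
  filter_upwards [NN_pos] with X hX
  rw [eq_div_iff hX.ne', sub_mul, div_mul_cancel₀ _ hX.ne', one_mul, NN_eq]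
  ring

theorem err_lim (δ C : ℝ) (hδ : 0 < δ) :
    Tendsto (fun X : ℕ => C * (X : ℝ) ^ (1 - δ) / NN X) atTop (𝓝 0) := by
  obtain ⟨c, hc, h⟩ := pi8_lower
  have h1 : Tendsto (fun X : ℕ => |C| / c * (Real.log X / (X : ℝ) ^ δ)) atTop (𝓝 0) := by
    have h2 : Tendsto (fun x : ℝ => Real.log x / x ^ δ) atTop (𝓝 0) :=
      (isLittleO_log_rpow_atTop hδ).tendsto_div_nhds_zero
    have h3 := (h2.comp tendsto_natCast_atTop_atTop).const_mul (|C| / c)
    simpa using h3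
  apply squeeze_zero_norm' _ h1
  filter_upwards [h, NN_pos, eventually_ge_atTop 2] with X hX hN h2
  have h3 : (2 : ℝ) ≤ X := by exact_mod_cast h2
  have h0 : (0 : ℝ) < X := by linarith
  have h4 : 0 < Real.log X := Real.log_pos (by linarith)
  have h5 : (0 : ℝ) < (X : ℝ) ^ δ := Real.rpow_pos_of_pos h0 _
  rw [Real.norm_eq_abs, abs_div, abs_mul, abs_of_pos hN, abs_of_pos (Real.rpow_pos_of_pos h0 _)]
  have h6 : (X : ℝ) ^ (1 - δ) = X / (X : ℝ) ^ δ := by rw [Real.rpow_sub h0, Real.rpow_one]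
  rw [h6]
  have hX' : c * (X : ℝ) / Real.log X ≤ NN X := hX
  have h7 : 0 < c * (X : ℝ) / Real.log X := by positivity
  calc |C| * (X / (X : ℝ) ^ δ) / NN X ≤ |C| * (X / (X : ℝ) ^ δ) / (c * (X : ℝ) / Real.log X) := by
        apply div_le_div_of_nonneg_left _ h7 hX'
        positivity
  _ = |C| / c * (Real.log X / (X : ℝ) ^ δ) := by
        field_simp

theorem lim16 : Tendsto (fun X : ℕ => PP 32 16 X / NN X) atTop (𝓝 (1 / 4)) := by
  obtain ⟨δ, hδ, C, hC⟩ := main_theorem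
  have h1 : Tendsto (fun X : ℕ => PP 32 16 X / NN X - PP 16 0 X / NN X / 2) atTop (𝓝 0) := by
    apply squeeze_zero_norm' _ (err_lim δ C hδ)
    filter_upwards [NN_pos, eventually_ge_atTop 1] with X hX h1
    have h2 : |PP 32 0 X - PP 32 16 X| ≤ C * (X : ℝ) ^ (1 - δ) := hC X h1
    have h3 : 0 ≤ C * (X : ℝ) ^ (1 - δ) := (abs_nonneg _).trans h2
    have e1 : PP 32 16 X / NN X - PP 16 0 X / NN X / 2 = (PP 32 16 X - PP 16 0 X / 2) / NN X := by
      ring
    rw [e1, Real.norm_eq_abs, abs_div, abs_of_pos hX]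
    apply div_le_div_of_nonneg_right _ hX.le
    have h4 := abs_le.1 h2
    rw [PP_eq, abs_le]
    constructor <;> linarith
  have h2 := h1.add (lim0.div_const 2)
  have e : (0 : ℝ) + 1 / 2 / 2 = 1 / 4 := by norm_num
  rw [e] at h2
  refine h2.congr fun X => ?_
  ring

theorem lim32 : Tendsto (fun X : ℕ => PP 32 0 X / NN X) atTop (𝓝 (1 / 4)) := by
  have h1 := lim0.sub lim16
  have e : (1 : ℝ) / 2 - 1 / 4 = 1 / 4 := by norm_num
  rw [e] at h1
  refine h1.congr fun X => ?_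
  rw [PP_eq]
  ring

end Pool.Agent.TM32
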