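import Pool.Agent.Lib_helper51.TM32.E0

/-!
TM32, second definition file.
-/

set_option autoImplicit false

namespace Pool.Agent.TM32

open Zsqrtd

/-- the reciprocity sign of `ℤ[√-2]`: `x, y` of odd norm, it depends on `x, y` mod 4 only -/
def rho (x y : Zs) : ℤ :=
  if x.im % 2 = 0 then
    (if y.im % 2 = 0 then 1 else if (x.re + x.im) % 4 = 1 then 1 else -1)
  else
    (if y.im % 2 = 0 then (if (y.re + y.im) % 4 = 1 then 1 else -1)
     else if (x.im - y.im) % 4 = 0 then -1 else 1)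

/-- `(2/a)` for odd `a` -/
def m8 (a : ℤ) : ℤ := if a % 8 = 1 ∨ a % 8 = 7 then 1 else -1

/-- `rho z b'`, `z` in `Op`, `c = im b'` -/
def m4 (z : Zs) (c : ℤ) : ℤ := if c % 2 = 1 ∧ (z.re + z.im) % 4 = 3 then -1 else 1

/-- `hil b z = (s^k/z) rho(b',z)` for `z` in `Op`, `b = s^k b'`, `b'` of odd norm (and `1` if
`4 ∣ b`) -/
def hil (b z : Zs) : ℤ :=
  if b.re % 2 = 1 then m4 z b.im
  else if b.im % 2 = 1 then m8 z.re * m4 z (b.re / 2)
  else if b.re % 4 = 2 then m4 z (b.im / 2)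
  else if b.im % 4 = 2 then m8 z.re * m4 z (b.re / 4)
  else 1

/-- product over the odd primes of `k`, with multiplicity -/
def Lp (k : ℤ) (f : ℕ → ℤ) : ℤ := ((k.natAbs.primeFactorsList.filter (fun l => l ≠ 2)).map f).prod

end Pool.Agent.TM32
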