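import Pool.Agent.Lib_helper51.TM32.Defs

/-!
`ℤ[ζ₈]` is norm-Euclidean.
-/

set_option autoImplicit false

namespace Pool.Agent.TM32

open Zsqrtd

theorem N8_mul (x y : Z8) : N8 (x * y) = N8 x * N8 y := by
  unfold N8; rw [map_mul, Zsqrtd.norm_mul]

theorem N8_eq (w : Z8) : N8 w = gg w ^ 2 - 2 * hh w ^ 2 := by
  unfold N8 gg hh
  rw [nv, QuadraticAlgebra.norm_def]
  simp only [Zsqrtd.re_add, Zsqrtd.re_sub, Zsqrtd.re_mul, Zsqrtd.im_add, Zsqrtd.im_sub, Zsqrtd.im_mul, Zsqrtd.re_one, Zsqrtd.im_one]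
  ring

theorem N8_nonneg (w : Z8) : 0 ≤ N8 w := nn _

theorem gg_nonneg (w : Z8) : 0 ≤ gg w := by unfold gg; positivity

theorem gg_eq_zero {w : Z8} (h : gg w = 0) : w = 0 := by
  unfold gg at h
  have h1 : w.im.im = 0 := by nlinarith [sq_nonneg (w.re.re - w.im.im), sq_nonneg (w.im.re + w.re.im), sq_nonneg w.im.im, sq_nonneg w.re.im]
  have h2 : w.re.im = 0 := by nlinarith [sq_nonneg (w.re.re - w.im.im), sq_nonneg (w.im.re + w.re.im), sq_nonneg w.im.im, sq_nonneg w.re.im]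
  have h3 : w.re.re - w.im.im = 0 := by nlinarith [sq_nonneg (w.re.re - w.im.im), sq_nonneg (w.im.re + w.re.im), sq_nonneg w.im.im, sq_nonneg w.re.im]
  have h4 : w.im.re + w.re.im = 0 := by nlinarith [sq_nonneg (w.re.re - w.im.im), sq_nonneg (w.im.re + w.re.im), sq_nonneg w.im.im, sq_nonneg w.re.im]
  have h5 : w.re.re = 0 := by omega
  have h6 : w.im.re = 0 := by omega
  ext
  · simpa using h5
  · simpa using h2
  · simpa using h6
  · simpa using h1

theorem N8_eq_zero {w : Z8} : N8 w = 0 ↔ w = 0 := by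
  constructor
  · intro h
    rw [N8_eq] at h
    have h1 : (⟨gg w, hh w⟩ : ℤ√2).norm = 0 := by rw [Zsqrtd.norm_def]; simp only; nlinarith
    have h2 := (Zsqrtd.norm_eq_zero (d := 2) (by
      intro n hn
      have h3 : n < 2 := by nlinarith
      have h4 : -2 < n := by nlinarith
      interval_cases n <;> omega) _).1 h1
    have h3 := congrArg Zsqrtd.re h2
    exact gg_eq_zero (by simpa using h3)
  · rintro rfl
    simp [N8]

theorem N8_pos {w : Z8} (h : w ≠ 0) : 0 < N8 w :=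
  lt_of_le_of_ne (N8_nonneg w) (fun h' => h (N8_eq_zero.1 h'.symm))

/-- the element with given coordinates -/
def mk4 (a b c d : ℤ) : Z8 := ⟨⟨a + c, d⟩, ⟨b - d, c⟩⟩

/-- the conjugate product: `w * adj w = N8 w` -/
def adj (w : Z8) : Z8 := star w * QuadraticAlgebra.C (star (QuadraticAlgebra.norm w))

theorem mul_adj (w : Z8) : w * adj w = ((N8 w : ℤ) : Z8) := by
  unfold adj N8
  rw [← mul_assoc, ← QuadraticAlgebra.algebraMap_norm_eq_mul_star, ← QuadraticAlgebra.C_eq_algebraMap,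
    ← QuadraticAlgebra.C_mul, ← Zsqrtd.norm_eq_mul_conj, QuadraticAlgebra.C_intCast]

theorem N8_intCast (n : ℤ) : N8 (n : Z8) = n ^ 4 := by
  unfold N8
  rw [QuadraticAlgebra.norm_intCast, ← Int.cast_pow, Zsqrtd.norm_intCast]; ring

theorem N8_adj {w : Z8} (h : w ≠ 0) : N8 (adj w) = N8 w ^ 3 := by
  have h1 := congrArg N8 (mul_adj w)
  rw [N8_mul, N8_intCast] at h1
  have h2 := N8_pos h
  have h3 : N8 w * N8 (adj w) = N8 w * (N8 w ^ 3) := by rw [h1]; ring
  exact mul_left_cancel₀ h2.ne' h3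

theorem gg_mk4 (a b c d : ℤ) : gg (mk4 a b c d) = a ^ 2 + b ^ 2 + c ^ 2 + d ^ 2 := by
  unfold gg mk4; ring

theorem hh_mk4 (a b c d : ℤ) : hh (mk4 a b c d) = a * b + b * c + c * d - d * a := by
  unfold hh mk4; ring

theorem eq_mk4 (w : Z8) : w = mk4 (w.re.re - w.im.im) (w.im.re + w.re.im) w.im.im w.re.im := by
  unfold mk4
  ext <;> simp

/-- the key estimate -/
theorem key4 {a b c d n : ℤ} (hn : 0 < n) (ha : 2 * |a| ≤ n) (hb : 2 * |b| ≤ n) (hc : 2 * |c| ≤ n)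
    (hd : 2 * |d| ≤ n) : N8 (mk4 a b c d) < n ^ 4 := by
  rw [N8_eq, gg_mk4, hh_mk4]
  have ha2 : 4 * a ^ 2 ≤ n ^ 2 := by rw [← sq_abs a]; nlinarith [abs_nonneg a]
  have hb2 : 4 * b ^ 2 ≤ n ^ 2 := by rw [← sq_abs b]; nlinarith [abs_nonneg b]
  have hc2 : 4 * c ^ 2 ≤ n ^ 2 := by rw [← sq_abs c]; nlinarith [abs_nonneg c]
  have hd2 : 4 * d ^ 2 ≤ n ^ 2 := by rw [← sq_abs d]; nlinarith [abs_nonneg d]
  have hg0 : 0 ≤ a ^ 2 + b ^ 2 + c ^ 2 + d ^ 2 := by positivity
  by_cases h : a ^ 2 + b ^ 2 + c ^ 2 + d ^ 2 < n ^ 2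
  · have h1 : (a ^ 2 + b ^ 2 + c ^ 2 + d ^ 2) ^ 2 < (n ^ 2) ^ 2 := by nlinarith
    nlinarith [sq_nonneg (a * b + b * c + c * d - d * a)]
  · push Not at h
    have ea : (2 * a) ^ 2 = n ^ 2 := by nlinarith
    have eb : (2 * b) ^ 2 = n ^ 2 := by nlinarith
    have ec : (2 * c) ^ 2 = n ^ 2 := by nlinarith
    have ed : (2 * d) ^ 2 = n ^ 2 := by nlinarith
    have hg : a ^ 2 + b ^ 2 + c ^ 2 + d ^ 2 = n ^ 2 := by nlinarith
    have hh0 : 16 * (a * b + b * c + c * d - d * a) ^ 2 = 4 * n ^ 4 := by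
      rcases sq_eq_sq_iff_eq_or_eq_neg.1 ea with h1 | h1 <;>
      rcases sq_eq_sq_iff_eq_or_eq_neg.1 eb with h2 | h2 <;>
      rcases sq_eq_sq_iff_eq_or_eq_neg.1 ec with h3 | h3 <;>
      rcases sq_eq_sq_iff_eq_or_eq_neg.1 ed with h4 | h4 <;>
      · have e : 4 * (a * b + b * c + c * d - d * a) =
          (2 * a) * (2 * b) + (2 * b) * (2 * c) + (2 * c) * (2 * d) - (2 * d) * (2 * a) := by ring
        have e2 : 16 * (a * b + b * c + c * d - d * a) ^ 2 =
          (4 * (a * b + b * c + c * d - d * a)) ^ 2 := by ring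
        rw [e2, e, h1, h2, h3, h4]; ring
    rw [hg]
    have : 0 < n ^ 4 := by positivity
    nlinarith

/-- rounding -/
def rnd (u n : ℤ) : ℤ := round ((u : ℚ) / (n : ℚ))

theorem rnd_spec (u : ℤ) {n : ℤ} (hn : 0 < n) : 2 * |u - n * rnd u n| ≤ n := by
  have hnq : (0 : ℚ) < n := by exact_mod_cast hn
  have := abs_sub_round ((u : ℚ) / n)
  have e : (u : ℚ) - n * rnd u n = ((u : ℚ) / n - rnd u n) * n := by field_simp
  have h : 2 * |(u : ℚ) - n * rnd u n| ≤ n := by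
    rw [e, abs_mul, abs_of_pos hnq]
    unfold rnd
    nlinarith
  exact_mod_cast h

/-- the quotient -/
def qt (x y : Z8) : Z8 :=
  let t := x * adj y
  let n := N8 y
  mk4 (rnd (t.re.re - t.im.im) n) (rnd (t.im.re + t.re.im) n) (rnd t.im.im n) (rnd t.re.im n)

theorem qt_spec (x : Z8) {y : Z8} (hy : y ≠ 0) : N8 (x - y * qt x y) < N8 y := by
  have hn := N8_pos hy
  set t := x * adj y with ht
  set n := N8 y with hnn
  have h1 : (x - y * qt x y) * adj y = mk4 ((t.re.re - t.im.im) - n * rnd (t.re.re - t.im.im) n)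
      ((t.im.re + t.re.im) - n * rnd (t.im.re + t.re.im) n) (t.im.im - n * rnd t.im.im n)
      (t.re.im - n * rnd t.re.im n) := by
    have e1 : (x - y * qt x y) * adj y = t - (n : Z8) * qt x y := by
      rw [sub_mul, ← ht, hnn, ← mul_adj]; ring
    rw [e1]
    have e2 : qt x y = mk4 (rnd (t.re.re - t.im.im) n) (rnd (t.im.re + t.re.im) n)
      (rnd t.im.im n) (rnd t.re.im n) := rfl
    rw [e2]
    unfold mk4
    ext
    · simp; ring
    · simp
    · simp; ring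
    · simp
  have h2 := key4 hn (rnd_spec (t.re.re - t.im.im) hn) (rnd_spec (t.im.re + t.re.im) hn)
    (rnd_spec t.im.im hn) (rnd_spec t.re.im hn)
  rw [← h1, N8_mul, N8_adj hy, ← hnn] at h2
  have h3 : N8 (x - y * qt x y) * n ^ 3 < n * n ^ 3 := by
    calc _ < n ^ 4 := h2
    _ = n * n ^ 3 := by ring
  exact lt_of_mul_lt_mul_right h3 (by positivity)

instance : Div Z8 := ⟨qt⟩
instance : Mod Z8 := ⟨fun x y => x - y * qt x y⟩

theorem qt_zero (x : Z8) : qt x 0 = 0 := by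
  have h : adj 0 = 0 := by unfold adj; simp
  unfold qt
  rw [h]
  simp [rnd, mk4]
  rfl

noncomputable instance : EuclideanDomain Z8 :=
  { (inferInstance : CommRing Z8), (inferInstance : Nontrivial Z8) with
    quotient := (· / ·)
    remainder := (· % ·)
    quotient_zero := qt_zero
    quotient_mul_add_remainder_eq := fun x y => by
      change y * qt x y + (x - y * qt x y) = x
      ring
    r := fun x y => N8 x < N8 y
    r_wellFounded := (measure (fun x : Z8 => (N8 x).natAbs)).wf.mono (fun x y h => by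
      have h1 := N8_nonneg x
      change (N8 x).natAbs < (N8 y).natAbs
      have h : N8 x < N8 y := h
      omega)
    remainder_lt := fun x y hy => qt_spec x hy
    mul_left_not_lt := fun x y hy => by
      rw [not_lt, N8_mul]
      have := N8_pos hy
      nlinarith [N8_nonneg x] }

theorem N8_one : N8 1 = 1 := by
  have := N8_intCast 1
  simpa using this

theorem isUnit_iff {w : Z8} : IsUnit w ↔ N8 w = 1 := by
  constructor
  · rintro ⟨u, rfl⟩
    have h := congrArg N8 (u.mul_inv)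
    rw [N8_mul, N8_one] at h
    have h1 := N8_nonneg (u : Z8)
    exact Int.eq_one_of_mul_eq_one_right h1 h
  · intro h
    have h1 := mul_adj w
    rw [h] at h1
    exact IsUnit.of_mul_eq_one (adj w) (by rw [h1]; simp)

theorem N8_assoc {x y : Z8} (h : Associated x y) : N8 x = N8 y := by
  obtain ⟨u, rfl⟩ := h
  rw [N8_mul, isUnit_iff.1 u.isUnit, mul_one]

theorem dvd_N8 (w : Z8) : w ∣ ((N8 w : ℤ) : Z8) := ⟨adj w, (mul_adj w).symm⟩

theorem N8_dvd {x y : Z8} (h : x ∣ y) : N8 x ∣ N8 y := by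
  obtain ⟨z, rfl⟩ := h
  exact ⟨N8 z, N8_mul x z⟩

/-- `ζ` -/
abbrev zet : Z8 := ⟨0, 1⟩

/-- `ε = 1 + √2` -/
abbrev eps : Z8 := ⟨⟨1, -1⟩, ⟨2, 0⟩⟩

end Pool.Agent.TM32
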