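import Mathlib

/-!
The Euclidean domain `ℤ√(-2)`.
-/

set_option autoImplicit false

namespace Pool.Agent.TM32

open Zsqrtd

/-- `ℤ[√-2]` -/
abbrev Zs := ℤ√(-2)

theorem nv (z : Zs) : z.norm = z.re ^ 2 + 2 * z.im ^ 2 := by
  rw [Zsqrtd.norm_def]; ring

theorem nn (z : Zs) : 0 ≤ z.norm := by
  rw [nv]; positivity

theorem n_eq_zero {z : Zs} : z.norm = 0 ↔ z = 0 := by
  constructor
  · intro h
    rw [nv] at h
    have h1 : z.re ^ 2 = 0 := by nlinarith [sq_nonneg z.re, sq_nonneg z.im]
    have h2 : z.im ^ 2 = 0 := by nlinarith [sq_nonneg z.re, sq_nonneg z.im]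
    ext
    · simpa using pow_eq_zero_iff (two_ne_zero) |>.1 h1
    · simpa using pow_eq_zero_iff (two_ne_zero) |>.1 h2
  · rintro rfl; simp

theorem n_pos {z : Zs} (h : z ≠ 0) : 0 < z.norm :=
  lt_of_le_of_ne (nn z) (fun h' => h (n_eq_zero.1 h'.symm))

instance : Div Zs :=
  ⟨fun x y => ⟨round (((x * star y).re : ℚ) / (y.norm : ℚ)),
    round (((x * star y).im : ℚ) / (y.norm : ℚ))⟩⟩

theorem div_def (x y : Zs) : x / y = ⟨round (((x * star y).re : ℚ) / (y.norm : ℚ)),
    round (((x * star y).im : ℚ) / (y.norm : ℚ))⟩ := rfl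

instance : Mod Zs := ⟨fun x y => x - y * (x / y)⟩

theorem mod_def (x y : Zs) : x % y = x - y * (x / y) := rfl

theorem norm_mod_lt (x : Zs) {y : Zs} (hy : y ≠ 0) : (x % y).norm < y.norm := by
  have hn := n_pos hy
  set n := y.norm with hnn
  set u := (x * star y).re with hu
  set v := (x * star y).im with hv
  set a := round ((u : ℚ) / (n : ℚ)) with ha
  set b := round ((v : ℚ) / (n : ℚ)) with hb
  have hq : x / y = ⟨a, b⟩ := rfl
  have hnq : (0 : ℚ) < n := by exact_mod_cast hn
  have h1 : |(u : ℚ) - a * n| ≤ n / 2 := by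
    have := abs_sub_round ((u : ℚ) / n)
    rw [← ha] at this
    have e : (u : ℚ) - a * n = ((u : ℚ) / n - a) * n := by field_simp
    rw [e, abs_mul, abs_of_pos hnq]
    nlinarith
  have h2 : |(v : ℚ) - b * n| ≤ n / 2 := by
    have := abs_sub_round ((v : ℚ) / n)
    rw [← hb] at this
    have e : (v : ℚ) - b * n = ((v : ℚ) / n - b) * n := by field_simp
    rw [e, abs_mul, abs_of_pos hnq]
    nlinarith
  have h3 : ((u - a * n : ℤ) : ℚ) ^ 2 ≤ (n / 2) ^ 2 := by
    push_cast; rw [← sq_abs]; exact pow_le_pow_left₀ (abs_nonneg _) h1 2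
  have h4 : ((v - b * n : ℤ) : ℚ) ^ 2 ≤ (n / 2) ^ 2 := by
    push_cast; rw [← sq_abs]; exact pow_le_pow_left₀ (abs_nonneg _) h2 2
  have key : (x % y).norm * n = (u - a * n) ^ 2 + 2 * (v - b * n) ^ 2 := by
    have e1 : (x % y) * star y = ⟨u - a * n, v - b * n⟩ := by
      rw [mod_def, hq, sub_mul]
      have e2 : y * (⟨a, b⟩ : Zs) * star y = (⟨a, b⟩ : Zs) * ((n : ℤ) : Zs) := by
        rw [hnn, Zsqrtd.norm_eq_mul_conj]; ring
      rw [e2]
      ext
      · simp [hu]
      · simp [hv]
    have e3 : (x % y).norm * n = ((x % y) * star y).norm := by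
      rw [Zsqrtd.norm_mul, Zsqrtd.norm_conj]
    rw [e3, e1, nv]
  have h5 : (((x % y).norm * n : ℤ) : ℚ) ≤ 3 / 4 * n ^ 2 := by
    rw [key]; push_cast at h3 h4 ⊢; nlinarith
  have h6 : ((x % y).norm : ℚ) < n := by
    push_cast at h5
    by_contra h
    push Not at h
    nlinarith
  exact_mod_cast h6

instance : EuclideanDomain Zs :=
  { (inferInstance : CommRing Zs), (inferInstance : Nontrivial Zs) with
    quotient := (· / ·)
    remainder := (· % ·)
    quotient_zero := by
      intro x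
      simp [div_def]
      rfl
    quotient_mul_add_remainder_eq := fun x y => by
      change y * (x / y) + x % y = x
      rw [mod_def]; ring
    r := fun x y => x.norm < y.norm
    r_wellFounded := (measure (fun x : Zs => x.norm.natAbs)).wf.mono (fun x y h => by
      have h1 := nn x
      change x.norm.natAbs < y.norm.natAbs
      have h : x.norm < y.norm := h
      omega)
    remainder_lt := fun x y hy => norm_mod_lt x hy
    mul_left_not_lt := fun x y hy => by
      rw [not_lt, Zsqrtd.norm_mul]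
      have := n_pos hy
      nlinarith [nn x] }

end Pool.Agent.TM32
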