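import Pool.Agent.Lib_helper51.TM32.Defs2

/-!
TM32, phase 2 (natural density): definitions. The quartic Hecke character of `ℤ[√-2]` modulo 4
and the coefficients of `η(8z) η(16z)`.
-/

set_option autoImplicit false

namespace Pool.Agent.TM32

open Zsqrtd

/-- the quartic character of `ℤ[√-2]` modulo 4 -/
noncomputable def kap (x : Zs) : ℂ :=
  if x.re % 2 = 0 then 0
  else if x.im % 4 = 0 then 1
  else if x.im % 4 = 2 then -1
  else if (x.re * x.im) % 4 = 1 then Complex.I
  else -Complex.I

/-- the elements of norm `n` -/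
noncomputable def SN (n : ℕ) : Finset Zs :=
  ((Finset.Icc (-(n : ℤ)) n ×ˢ Finset.Icc (-(n : ℤ)) n).map
    ⟨fun v => (⟨v.1, v.2⟩ : Zs), by
      rintro ⟨a, b⟩ ⟨c, d⟩ h
      simp only [Zsqrtd.mk.injEq] at h
      rw [h.1, h.2]⟩).filter (fun x => x.norm = n)

/-- the coefficients of `η(8z) η(16z)`: `rr n` is half the sum of `kap x` over `N x = n` -/
noncomputable def rr (n : ℕ) : ℂ := (∑ x ∈ SN n, kap x) / 2

/-- first Satake parameter -/
noncomputable def av (p : ℕ) : ℂ :=
  if p % 8 = 1 then rr p / 2 else if p % 8 = 3 then Complex.I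
  else if p % 8 = 5 ∨ p % 8 = 7 then 1 else 0

/-- second Satake parameter -/
noncomputable def bv (p : ℕ) : ℂ :=
  if p % 8 = 1 then rr p / 2 else if p % 8 = 3 then -Complex.I
  else if p % 8 = 5 ∨ p % 8 = 7 then -1 else 0

/-- the completely multiplicative function with values `av p` at the primes -/
noncomputable def aa (n : ℕ) : ℂ := if n = 0 then 0 else (n.primeFactorsList.map av).prod

/-- the completely multiplicative function with values `bv p` at the primes -/
noncomputable def bb (n : ℕ) : ℂ := if n = 0 then 0 else (n.primeFactorsList.map bv).prod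

end Pool.Agent.TM32
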